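import Mathlib

/-!
# Numbers for the upper bound

Proof of `num_up`, as described in the header of `Pool/Agent/H63/CM/Up.lean`: split at `n ≤ 2 m`.
-/

set_option autoImplicit false

open Filter Real

namespace Pool.Agent.H63.CM

theorem up_harm (K : ℕ) (hK : 1 ≤ K) : ∀ n : ℕ, K ≤ n →
    ∑ h ∈ Finset.Icc K n, 1 / (h : ℝ) ≤ 1 + log n - log K := by
  intro n hn
  induction n, hn using Nat.le_induction with
  | base =>
    rw [Finset.Icc_self, Finset.sum_singleton]
    have h1 : (1 : ℝ) ≤ K := by exact_mod_cast hK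
    have h2 : 1 / (K : ℝ) ≤ 1 := by
      rw [div_le_one (by linarith)]; exact h1
    linarith
  | succ n hn ih =>
    rw [Finset.sum_Icc_succ_top (by omega)]
    have hn0 : (0 : ℝ) < n := by exact_mod_cast (by omega : 0 < n)
    have h1 : log ((n : ℝ) / (n + 1)) ≤ (n : ℝ) / (n + 1) - 1 :=
      log_le_sub_one_of_pos (by positivity)
    rw [log_div hn0.ne' (by positivity)] at h1
    have h2 : (n : ℝ) / (n + 1) - 1 = -(1 / ((n : ℝ) + 1)) := by field_simp; ring
    rw [h2] at h1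
    push_cast
    linarith

theorem up_sq (K : ℕ) (hK : 1 ≤ K) : ∀ n : ℕ, K ≤ n →
    ∑ h ∈ Finset.Icc K n, 1 / (h : ℝ) ^ 2 ≤ 2 / (K : ℝ) - 1 / (n : ℝ) := by
  intro n hn
  induction n, hn using Nat.le_induction with
  | base =>
    rw [Finset.Icc_self, Finset.sum_singleton]
    have h1 : (1 : ℝ) ≤ K := by exact_mod_cast hK
    have h0 : (0 : ℝ) < K := by linarith
    have h2 : 2 / (K : ℝ) - 1 / K = 1 / K := by ring
    rw [h2]
    exact one_div_le_one_div_of_le h0 (by nlinarith)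
  | succ n hn ih =>
    rw [Finset.sum_Icc_succ_top (by omega)]
    have hn0 : (0 : ℝ) < n := by exact_mod_cast (by omega : 0 < n)
    have h3 : 1 / ((n + 1 : ℕ) : ℝ) ^ 2 ≤ 1 / n - 1 / ((n + 1 : ℕ) : ℝ) := by
      push_cast
      have : 1 / (n : ℝ) - 1 / (n + 1) = 1 / (n * (n + 1)) := by field_simp; ring
      rw [this]
      exact one_div_le_one_div_of_le (by positivity) (by nlinarith)
    linarith

theorem up_log3 : (1 : ℝ) ≤ log 3 := by
  rw [le_log_iff_exp_le (by norm_num)]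
  have := exp_one_lt_d9
  linarith

/-- the first sum -/
theorem up_sum1 (n : ℕ) (lam : ℝ) (hl : 1 ≤ lam) (S : Finset ℕ)
    (hS : ∀ m ∈ S, m < n ∧ lam ≤ (n : ℝ) - m) (hln : lam ≤ n) :
    ∑ m ∈ S, (lam * (1 / ((n : ℝ) - m)) + (lam * (1 / ((n : ℝ) - m))) ^ 2) ≤
      lam * (1 + log n - log lam) + 2 * lam := by
  have hl0 : (0 : ℝ) < lam := by linarith
  set g : ℕ → ℝ := fun h => lam * (1 / (h : ℝ)) + (lam * (1 / (h : ℝ))) ^ 2 with hg
  have h1 : ∑ m ∈ S, (lam * (1 / ((n : ℝ) - m)) + (lam * (1 / ((n : ℝ) - m))) ^ 2) =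
      ∑ m ∈ S, g (n - m) := by
    apply Finset.sum_congr rfl
    intro m hm
    rw [hg]
    simp only
    rw [Nat.cast_sub (hS m hm).1.le]
  have hinj : Set.InjOn (fun m : ℕ => n - m) S := by
    intro a ha b hb hab
    have h1 := (hS a ha).1
    have h2 := (hS b hb).1
    simp only at hab
    omega
  have h2 : ∑ m ∈ S, g (n - m) = ∑ h ∈ S.image (fun m => n - m), g h :=
    (Finset.sum_image hinj).symm
  set K := ⌈lam⌉₊ with hK
  have hKl : lam ≤ K := Nat.le_ceil lam
  have hK1 : 1 ≤ K := by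
    rw [hK]; exact Nat.one_le_ceil_iff.mpr hl0
  have hK0 : (0 : ℝ) < K := by linarith
  have hKn : K ≤ n := Nat.ceil_le.mpr hln
  · have h3 : ∑ h ∈ S.image (fun m => n - m), g h ≤ ∑ h ∈ Finset.Icc K n, g h := by
      apply Finset.sum_le_sum_of_subset_of_nonneg
      · intro h hh
        rw [Finset.mem_image] at hh
        obtain ⟨m, hm, rfl⟩ := hh
        rw [Finset.mem_Icc]
        refine ⟨Nat.ceil_le.mpr ?_, Nat.sub_le _ _⟩
        rw [Nat.cast_sub (hS m hm).1.le]
        exact (hS m hm).2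
      · intro h _ _
        rw [hg]
        positivity
    have h4 : ∑ h ∈ Finset.Icc K n, g h =
        lam * ∑ h ∈ Finset.Icc K n, 1 / (h : ℝ) + lam ^ 2 * ∑ h ∈ Finset.Icc K n, 1 / (h : ℝ) ^ 2 := by
      rw [Finset.mul_sum, Finset.mul_sum, ← Finset.sum_add_distrib]
      apply Finset.sum_congr rfl
      intro h _
      rw [hg]
      simp only
      ring
    have h5 := up_harm K hK1 n hKn
    have h6 := up_sq K hK1 n hKn
    have h7 : log lam ≤ log K := log_le_log hl0 hKl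
    have h8 : ∑ h ∈ Finset.Icc K n, 1 / (h : ℝ) ≤ 1 + log n - log lam := by linarith
    have hn0 : (0 : ℝ) ≤ 1 / n := by positivity
    have h9 : 2 / (K : ℝ) ≤ 2 / lam := div_le_div_of_nonneg_left (by norm_num) hl0 hKl
    have h10 : ∑ h ∈ Finset.Icc K n, 1 / (h : ℝ) ^ 2 ≤ 2 / lam := by linarith
    rw [h1, h2]
    refine h3.trans ?_
    rw [h4]
    have h11 : lam ^ 2 * ∑ h ∈ Finset.Icc K n, 1 / (h : ℝ) ^ 2 ≤ lam ^ 2 * (2 / lam) :=
      mul_le_mul_of_nonneg_left h10 (by positivity)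
    have h12 : lam ^ 2 * (2 / lam) = 2 * lam := by field_simp
    have h13 := mul_le_mul_of_nonneg_left h8 hl0.le
    linarith

/-- the second sum -/
theorem up_sum2 (n : ℕ) (L : ℝ) (hL : 0 < L) (S : Finset ℕ) (hS : ∀ m ∈ S, m < n) :
    ∑ m ∈ S, (if (m : ℝ) < √(n : ℝ) then (1 : ℝ) else 2 / L) ≤ √(n : ℝ) + 1 + n * (2 / L) := by
  classical
  have h0 : (0 : ℝ) ≤ 2 / L := by positivity
  have h1 : ∑ m ∈ S, (if (m : ℝ) < √(n : ℝ) then (1 : ℝ) else 2 / L) ≤
      ∑ m ∈ Finset.range n, ((if (m : ℝ) < √(n : ℝ) then (1 : ℝ) else 0) + 2 / L) := by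
    refine (Finset.sum_le_sum (f := fun m : ℕ => if (m : ℝ) < √(n : ℝ) then (1 : ℝ) else 2 / L)
      (g := fun m : ℕ => (if (m : ℝ) < √(n : ℝ) then (1 : ℝ) else 0) + 2 / L) ?_).trans ?_
    · intro m _
      split_ifs <;> linarith
    · apply Finset.sum_le_sum_of_subset_of_nonneg
      · intro m hm; exact Finset.mem_range.mpr (hS m hm)
      · intro m _ _
        split_ifs <;> linarith
  refine h1.trans ?_
  rw [Finset.sum_add_distrib, Finset.sum_const, Finset.card_range, nsmul_eq_mul]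
  have h2 : ∑ m ∈ Finset.range n, (if (m : ℝ) < √(n : ℝ) then (1 : ℝ) else 0) ≤ √(n : ℝ) + 1 := by
    rw [← Finset.sum_filter, Finset.sum_const, nsmul_eq_mul, mul_one]
    have h3 : (Finset.range n).filter (fun m : ℕ => (m : ℝ) < √(n : ℝ)) ⊆
        Finset.range ⌈√(n : ℝ)⌉₊ := by
      intro m hm
      rw [Finset.mem_filter] at hm
      rw [Finset.mem_range]
      exact Nat.lt_ceil.mpr hm.2
    have h4 := Finset.card_le_card h3
    rw [Finset.card_range] at h4
    have h5 : ((⌈√(n : ℝ)⌉₊ : ℕ) : ℝ) < √(n : ℝ) + 1 := Nat.ceil_lt_add_one (sqrt_nonneg _)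
    have h6 : ((((Finset.range n).filter (fun m : ℕ => (m : ℝ) < √(n : ℝ))).card : ℕ) : ℝ) ≤
        ((⌈√(n : ℝ)⌉₊ : ℕ) : ℝ) := by exact_mod_cast h4
    linarith
  linarith

/-- the bound for one term -/
theorem up_term (n m : ℕ) (lam : ℝ) (hl : 0 < lam) (hm3 : 3 ≤ m) (hmn : m < n)
    (hL : 2 ≤ log n) (hlm : lam ≤ (n : ℝ) - m) :
    (1 / log m) * (exp (lam * (1 / ((n : ℝ) - m))) - 1) ≤
      (1 / (log n - 1)) * (lam * (1 / ((n : ℝ) - m)) + (lam * (1 / ((n : ℝ) - m))) ^ 2) +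
        4 * lam / n * (if (m : ℝ) < √(n : ℝ) then (1 : ℝ) else 2 / log n) := by
  have hm3' : (3 : ℝ) ≤ m := by exact_mod_cast hm3
  have hmn' : (m : ℝ) < n := by exact_mod_cast hmn
  have hn0 : (0 : ℝ) < n := by linarith
  have hh0 : (0 : ℝ) < (n : ℝ) - m := by linarith
  set y := lam * (1 / ((n : ℝ) - m)) with hy
  have hy0 : 0 < y := by positivity
  have hy1 : y ≤ 1 := by
    rw [hy, mul_one_div, div_le_one hh0]; exact hlm
  have hexp : exp y - 1 ≤ y + y ^ 2 := by
    have h1 := abs_exp_sub_one_sub_id_le (x := y) (by rw [abs_of_pos hy0]; exact hy1)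
    have h2 := (abs_le.mp h1).2
    linarith
  have hexp0 : 0 ≤ exp y - 1 := by
    have := add_one_le_exp y
    linarith
  have hlogm : 1 ≤ log m := up_log3.trans (log_le_log (by norm_num) hm3')
  have hlogm0 : 0 < log m := by linarith
  have hind0 : (0 : ℝ) ≤ (if (m : ℝ) < √(n : ℝ) then (1 : ℝ) else 2 / log n) := by
    split_ifs
    · norm_num
    · positivity
  rcases le_or_gt (n : ℝ) (2 * m) with hc | hc
  · have h1 : log n - 1 ≤ log m := by
      have h2 : log (n : ℝ) ≤ log (2 * m) := log_le_log hn0 hc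
      rw [log_mul (by norm_num) (by linarith)] at h2
      have h3 : log 2 ≤ 1 := by
        have := log_two_lt_d9
        linarith
      linarith
    have h4 : 1 / log m ≤ 1 / (log n - 1) := one_div_le_one_div_of_le (by linarith) h1
    have h5 : (1 / log m) * (exp y - 1) ≤ (1 / (log n - 1)) * (y + y ^ 2) :=
      mul_le_mul h4 hexp hexp0 (by
        apply one_div_nonneg.mpr
        linarith)
    have h6 : 0 ≤ 4 * lam / n * (if (m : ℝ) < √(n : ℝ) then (1 : ℝ) else 2 / log n) :=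
      mul_nonneg (by positivity) hind0
    linarith
  · have h1 : exp y - 1 ≤ 4 * lam / n := by
      have h2 : y ^ 2 ≤ y := by nlinarith
      have h3 : y ≤ 2 * lam / n := by
        rw [hy, mul_one_div, div_le_div_iff₀ hh0 hn0]
        nlinarith
      have h4 : 4 * lam / n = 2 * (2 * lam / n) := by ring
      linarith
    have h5 : 1 / log m ≤ (if (m : ℝ) < √(n : ℝ) then (1 : ℝ) else 2 / log n) := by
      split_ifs with h
      · rw [div_le_one hlogm0]; exact hlogm
      · rw [not_lt] at h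
        have h6 : log (√(n : ℝ)) ≤ log m := log_le_log (sqrt_pos.mpr hn0) h
        rw [log_sqrt hn0.le] at h6
        rw [div_le_div_iff₀ hlogm0 (by linarith)]
        linarith
    have h7 : (1 / log m) * (exp y - 1) ≤
        (if (m : ℝ) < √(n : ℝ) then (1 : ℝ) else 2 / log n) * (4 * lam / n) :=
      mul_le_mul h5 h1 hexp0 hind0
    have h8 : 0 ≤ (1 / (log n - 1)) * (y + y ^ 2) :=
      mul_nonneg (one_div_nonneg.mpr (by linarith)) (by positivity)
    linarith [mul_comm (4 * lam / n) (if (m : ℝ) < √(n : ℝ) then (1 : ℝ) else 2 / log n)]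

theorem num_up {ε : ℝ} (hε : 0 < ε) : ∀ᶠ n : ℕ in atTop,
    -((log n) ^ 2 / 4 * (1 - (2 - ε) * log (log n) / log n - 3 / ((n : ℝ) - 2))) +
      ∑ m ∈ (Finset.Ico 3 n).filter (fun m : ℕ => (log n) ^ 2 / 4 ≤ (n : ℝ) - m),
        (1 / log m) * (exp ((log n) ^ 2 / 4 * (1 / ((n : ℝ) - m))) - 1) ≤ -(2 * log n) := by
  have t1 : Tendsto (fun n : ℕ => log (n : ℝ)) atTop atTop :=
    tendsto_log_atTop.comp tendsto_natCast_atTop_atTop
  have t2 : Tendsto (fun n : ℕ => log (log (n : ℝ))) atTop atTop := tendsto_log_atTop.comp t1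
  have t3 : ∀ᶠ n : ℕ in atTop, log (n : ℝ) ≤ 1 / 2 * √(n : ℝ) := by
    have h := (isLittleO_log_rpow_atTop (r := 1 / 2) (by norm_num)).bound
      (by norm_num : (0 : ℝ) < 1 / 2)
    have h2 := tendsto_natCast_atTop_atTop (R := ℝ) |>.eventually h
    filter_upwards [h2, eventually_ge_atTop 1] with n hn hn1
    have hn1' : (1 : ℝ) ≤ n := by exact_mod_cast hn1
    rw [norm_of_nonneg (log_nonneg hn1'), norm_of_nonneg (by positivity)] at hn
    rw [sqrt_eq_rpow]
    exact hn
  filter_upwards [t1.eventually_ge_atTop 4, t2.eventually_ge_atTop 3,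
    t2.eventually_ge_atTop (30 / ε), t3, eventually_ge_atTop 5] with n hL hLL hLe hsq hn5
  have hn5' : (5 : ℝ) ≤ n := by exact_mod_cast hn5
  have hn0 : (0 : ℝ) < n := by linarith
  set L := log (n : ℝ) with hLdef
  have hL0 : 0 < L := by linarith
  set lam := L ^ 2 / 4 with hlam
  have hlam1 : 1 ≤ lam := by rw [hlam]; nlinarith
  have hlam0 : 0 < lam := by linarith
  have hlamn : lam ≤ n := by
    have hss : √(n : ℝ) * √(n : ℝ) = n := mul_self_sqrt hn0.le
    rw [hlam]
    nlinarith [sqrt_nonneg (n : ℝ)]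
  set S := (Finset.Ico 3 n).filter (fun m : ℕ => lam ≤ (n : ℝ) - m) with hSdef
  have hS1 : ∀ m ∈ S, m < n ∧ lam ≤ (n : ℝ) - m := by
    intro m hm
    rw [hSdef, Finset.mem_filter, Finset.mem_Ico] at hm
    exact ⟨hm.1.2, hm.2⟩
  have hS3 : ∀ m ∈ S, 3 ≤ m := by
    intro m hm
    rw [hSdef, Finset.mem_filter, Finset.mem_Ico] at hm
    exact hm.1.1
  have hsum : ∑ m ∈ S, (1 / log m) * (exp (lam * (1 / ((n : ℝ) - m))) - 1) ≤
      (1 / (L - 1)) * (lam * (1 + L - log lam) + 2 * lam) +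
        4 * lam / n * (√(n : ℝ) + 1 + n * (2 / L)) := by
    calc ∑ m ∈ S, (1 / log m) * (exp (lam * (1 / ((n : ℝ) - m))) - 1)
        ≤ ∑ m ∈ S, ((1 / (L - 1)) * (lam * (1 / ((n : ℝ) - m)) +
            (lam * (1 / ((n : ℝ) - m))) ^ 2) +
            4 * lam / n * (if (m : ℝ) < √(n : ℝ) then (1 : ℝ) else 2 / L)) := by
          apply Finset.sum_le_sum
          intro m hm
          exact up_term n m lam hlam0 (hS3 m hm) (hS1 m hm).1 (by linarith) (hS1 m hm).2
      _ = (1 / (L - 1)) * ∑ m ∈ S, (lam * (1 / ((n : ℝ) - m)) +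
            (lam * (1 / ((n : ℝ) - m))) ^ 2) +
            4 * lam / n * ∑ m ∈ S, (if (m : ℝ) < √(n : ℝ) then (1 : ℝ) else 2 / L) := by
          rw [Finset.sum_add_distrib, Finset.mul_sum, Finset.mul_sum]
      _ ≤ _ := by
          have a1 := up_sum1 n lam hlam1 S hS1 hlamn
          have a2 := up_sum2 n L hL0 S (fun m hm => (hS1 m hm).1)
          have a3 : (0 : ℝ) ≤ 1 / (L - 1) := one_div_nonneg.mpr (by linarith)
          have a4 : (0 : ℝ) ≤ 4 * lam / n := by positivity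
          exact add_le_add (mul_le_mul_of_nonneg_left a1 a3) (mul_le_mul_of_nonneg_left a2 a4)
  -- logarithm of `lam`
  have hloglam : log lam = 2 * log L - log 4 := by
    rw [hlam, log_div (by positivity) (by norm_num), log_pow]
    push_cast
    ring
  have hlog4 : log 4 ≤ 2 := by
    have : (4 : ℝ) = 2 ^ 2 := by norm_num
    rw [this, log_pow]
    have := log_two_lt_d9
    push_cast
    linarith
  -- the first part
  have p1 : (1 / (L - 1)) * (lam * (1 + L - log lam) + 2 * lam) ≤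
      lam + lam * (6 - 2 * log L) / L := by
    have b1 : lam * (1 + L - log lam) + 2 * lam ≤ lam * (L - 1) + lam * (6 - 2 * log L) := by
      rw [hloglam]
      nlinarith
    have b2 : (1 / (L - 1)) * (lam * (1 + L - log lam) + 2 * lam) ≤
        (1 / (L - 1)) * (lam * (L - 1) + lam * (6 - 2 * log L)) :=
      mul_le_mul_of_nonneg_left b1 (one_div_nonneg.mpr (by linarith))
    have hL1 : 0 < L - 1 := by linarith
    have b3 : (1 / (L - 1)) * (lam * (L - 1) + lam * (6 - 2 * log L)) =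
        lam + lam * (6 - 2 * log L) / (L - 1) := by field_simp
    have b4 : lam * (6 - 2 * log L) / (L - 1) ≤ lam * (6 - 2 * log L) / L := by
      rw [div_le_div_iff₀ hL1 hL0]
      have : lam * (6 - 2 * log L) ≤ 0 := mul_nonpos_of_nonneg_of_nonpos hlam0.le (by linarith)
      nlinarith
    linarith
  -- the second part
  have p2 : 4 * lam / n * (√(n : ℝ) + 1 + n * (2 / L)) ≤ 3 * L := by
    have hs1 : 1 ≤ √(n : ℝ) := by
      rw [one_le_sqrt]; linarith
    have hss : √(n : ℝ) * √(n : ℝ) = n := mul_self_sqrt hn0.le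
    have c1 : L * (√(n : ℝ) + 1) ≤ n := by nlinarith
    have c2 : √(n : ℝ) + 1 ≤ n / L := by rw [le_div_iff₀ hL0]; linarith
    have c3 : √(n : ℝ) + 1 + n * (2 / L) ≤ 3 * n / L := by
      have : n * (2 / L) + n / L = 3 * n / L := by ring
      linarith
    have c4 : 4 * lam / n * (√(n : ℝ) + 1 + n * (2 / L)) ≤ 4 * lam / n * (3 * n / L) :=
      mul_le_mul_of_nonneg_left c3 (by positivity)
    have c5 : 4 * lam / n * (3 * n / L) = 3 * L := by
      rw [hlam]; field_simp
    linarith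
  -- the small term
  have p3 : lam * (3 / ((n : ℝ) - 2)) ≤ L := by
    have d1 : L ≤ n - 1 := log_le_sub_one_of_pos hn0
    have d2 : (0 : ℝ) < (n : ℝ) - 2 := by linarith
    rw [mul_div_assoc', div_le_iff₀ d2, hlam]
    nlinarith
  have p4 : 30 ≤ ε * log L := by
    rw [div_le_iff₀ hε] at hLe
    linarith
  have p5 : lam * (6 - 2 * log L) / L = L / 4 * (6 - 2 * log L) := by
    rw [hlam]; field_simp
  have p6 : lam * ((2 - ε) * log L / L) = L / 4 * ((2 - ε) * log L) := by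
    rw [hlam]; field_simp
  have p7 : -(lam * (1 - (2 - ε) * log L / L - 3 / ((n : ℝ) - 2))) =
      -lam + lam * ((2 - ε) * log L / L) + lam * (3 / ((n : ℝ) - 2)) := by ring
  rw [p7, p6]
  rw [p5] at p1
  have p8 : L / 4 * ((2 - ε) * log L) + L / 4 * (6 - 2 * log L) = L / 4 * (6 - ε * log L) := by ring
  have p9 : L / 4 * (6 - ε * log L) ≤ L / 4 * (-24) :=
    mul_le_mul_of_nonneg_left (by linarith) (by linarith)
  linarith

end Pool.Agent.H63.CM
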